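import Pool.Agent.Run7.h457.DB.Port

/-!
# Rational cubic fourfolds and the Fano variety of lines: moduli of twisted sheaves

`F(X)` is the variety of lines. `FHilb X`: `F(X)` is birational to `S^[2]` for a K3 surface `S`. `FTw X`: `F(X)` is
birational to a moduli space of stable twisted sheaves on a K3 surface; it holds if and only if `X` lies in `C_d`
for some `d` with condition (**') of Huybrechts.

1. If `X` is rational and `End T(X) = ℚ` then `F(X)` is birational to a moduli space of stable twisted sheaves on
a K3 surface.
2. If `X` is rational then `T(X)(1) ≅ T(S)` as rational Hodge structures for a minimal surface `S` with nef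
canonical bundle, `p_g = 1` and `ρ(S) + K_S² + 1 ≤ rk A(X)`; if `rk A(X) = 2` then `S` is a K3 surface of Picard
number one.
3. The equivalence of Galkin and Shinder holds (both sides are false) for the very general cubic fourfold, which
is irrational, and for the very general member of `C_d`, for all `d` which violate (**'):
`d = 12, 20, 30, 36, 44, 48, 60, ...`.

The theorems on Hodge atoms (Katzarkov, Kontsevich, Pantev, Yu), weak factorization, surfaces and lattices
are the hypotheses `KnownCubic` and `FormFacts2`, the known facts on the condition of this page are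
`AssocFacts` and `htw`; they are published theorems, not proved in Lean. The deduction and the quadratic
forms are proved in Lean. This is the version for this page of MP_6fa476_ag.IrrationalDivisors.
-/

set_option autoImplicit false

namespace Pool.Agent.Results.MP_4d0966_ag.FanoVarietiesOfLines

open Run7.H457.DB

theorem result (W : World) (C : Cub W) (K : KnownCubic C) (F : Forms W) (KF : FormFacts2 C F)
    (FHilb FTw : W.V → Prop) (A : AssocFacts C FHilb)
    (htw : ∀ X, C.IsCubic X → Isotropic F X → FTw X) (X : W.V) (hX : C.IsCubic X) :
    (Rational W X → C.EndQ (C.T X) → FTw X ∧ Isotropic F X) ∧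
    (Rational W X → ∃ S, IsMin C S ∧ C.T X = C.T S ∧ C.rho S + C.K2 S + 1 ≤ C.rA X ∧
      1 ≤ C.rho S) ∧
    (Rational W X → C.rA X = 2 → ∃ S, C.IsK3 S ∧ C.rho S = 1 ∧ C.T X = C.T S) ∧
    (C.rA X ≤ 1 ∨ (C.rA X = 2 ∧ C.EndQ (C.T X) ∧ Viol (C.disc X)) →
      ¬ Rational W X ∧ ¬ FHilb X ∧ (Rational W X ↔ FHilb X)) := by
  refine ⟨fun hr hE => ?_, fun hr => rational_cubic K hX hr, fun hr h2 => rank_two K hX hr h2,
    fun h => ?_⟩
  · have h := rational_isotropic K F KF hX hr hE
    exact ⟨htw X hX h, h⟩
  · obtain ⟨h1, h2⟩ := both_false K A hX h
    exact ⟨h1, h2, ⟨fun h => absurd h h1, fun h => absurd h h2⟩⟩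

end Pool.Agent.Results.MP_4d0966_ag.FanoVarietiesOfLines
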