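import Pool.Agent.Run7.h762.GS.Final

/-!
# Hilbert squares and associated K3 surfaces of cubic fourfolds: a local-global theorem

Let `X` be a smooth cubic fourfold, `A(X)` the group of its Hodge classes in `H^4(X, ℤ)`, `h` the square
of the hyperplane class and `disc v = 3 v.v - (h.v) ^ 2`. By a theorem of Addington, the variety of
lines `F(X)` is birational to the Hilbert square `S^[2]` of a K3 surface if and only if `X` is in a
Hassett divisor `C_d` with `a ^ 2 d = 2 n ^ 2 + 2 n + 2` for some integers `a`, `n` (this is the condition
of Galkin and Shinder); `X` has an associated K3 surface, in the sense of Hassett or of Kuznetsov,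
if and only if `X` is in `C_d` for an admissible `d`. The first condition is stronger in general
(Addington: for the very general member of `C_74` only the second is satisfied). The following is
proved.

1. If the rank of `A(X)` is at least `5`, then the two conditions are equivalent. They are also
   equivalent to the conjunction of the following local conditions: `4` does not divide all
   discriminants `disc v`; not all discriminants are `0` or `12` modulo `18`; and no prime number
   `p ≡ 2 mod 3`, `p ≥ 5`, divides all discriminants.
2. If the rank of `A(X)` is `4`, then this is also true if `disc v = 2 s ^ 2` for a Hodge class `v` and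
   some `s ≠ 0` (that is, if the form `m ^ 2 - 2 disc v` has a nontrivial zero).
3. If the rank of `A(X)` is at least `13` then both conditions are satisfied.
4. If `X` contains a plane, then the two conditions are equivalent, and equivalent to: there is a
   Hodge class `v` such that `4` does not divide `disc v`. Here the rank is arbitrary.
5. If `X` is in `C_18`, then the two conditions are equivalent, and equivalent to: there is a Hodge
   class `v` such that `disc v` is neither `0` nor `12` modulo `18`. The rank is arbitrary.

Hence the conjecture of Galkin and Shinder and the conjecture of Hassett and Kuznetsov are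
equivalent for all these cubic fourfolds; a cubic fourfold which is in the scope of only one of them
has a group of Hodge classes of rank at most four and contains no plane.

Known facts which are used (the hypotheses of the theorem): the properties of `H^4(X, ℤ)` collected
in `H4.IsCohomology`. Hassett's theorem and Addington's theorem are used in the definitions.

Idea of the proof. `F(X)` is birational to a Hilbert square if and only if the indefinite form
`f(m, v) = m ^ 2 - 2 disc v` on `ℤ ⊕ A(X) / ℤ h` represents `-3`. If the rank of `A(X)` is at least `5`, this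
form has at least five variables and has a nontrivial zero by the theorem of Meyer. With a zero
`(2 s, v_0)` it is sufficient to find `(k, w)` such that the number `e = v_0.w - s k` (product with
respect to the form `disc`) is different from zero and `4 e` divides `f(k, w) + 3`. This is a local
condition at the primes dividing `2 s`; by the Chinese remainder theorem and the theorem of
Dirichlet one can find `(k, w)` satisfying these conditions such that `e` is the product of the
prime powers prescribed by them and of one large prime number `q`, and the condition at `q`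
is satisfied since a nondegenerate binary form represents all residues modulo `q`. For `C_8` and
`C_18` one finds `(k, w)` directly, for every rank. For `3.` one uses that `H^4(X, ℤ)` is unimodular:
if a local condition at `p` is violated then the intersection form has rank at most one on
`A(X)` modulo `p`, and the rank of `A(X)` is at most `12`.
-/

set_option autoImplicit false

namespace Pool.Agent.Results.MP_4d0966_ag.RankFiveEquivalence

open Pool.Agent.Y95.Q

/-- `X` is in the Hassett divisor `C_d`: there is a Hodge class `v` such that `h` and `v` span a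
saturated group of discriminant `d`. -/
def InDivisor {X : CubicFourfold} (H : H4 X) (d : ℤ) : Prop :=
  ∃ v, H.IsHodge v ∧ H.Saturated v ∧ H.disc v = d

/-- `X` is in a Hassett divisor `C_d`, where `d = (2 n ^ 2 + 2 n + 2) / a ^ 2` with integers `a` and `n`.
By a theorem of Addington this means that the variety of lines `F(X)` is birational to the Hilbert
square `S^[2]` of some K3 surface `S`. -/
def HilbertSquare {X : CubicFourfold} (H : H4 X) : Prop :=
  ∃ d, (∃ a n : ℤ, a ^ 2 * d = 2 * n ^ 2 + 2 * n + 2) ∧ InDivisor H d

/-- `X` is in a Hassett divisor `C_d` with an admissible `d`. By theorems of Hassett and of Addington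
and Thomas this means that `X` has an associated K3 surface, in the sense of Hassett or of
Kuznetsov. -/
def AssociatedK3 {X : CubicFourfold} (H : H4 X) : Prop := ∃ d, Admissible d ∧ InDivisor H d

/-- The local conditions: `4` does not divide all discriminants, they are not all `0` or `12` modulo `18`,
and no prime `p ≡ 2 mod 3`, `p ≥ 5`, divides all of them. -/
def LocalConditions {X : CubicFourfold} (H : H4 X) : Prop :=
  (∃ v, H.IsHodge v ∧ ¬ 4 ∣ H.disc v) ∧
  (∃ v, H.IsHodge v ∧ H.disc v % 18 ≠ 0 ∧ H.disc v % 18 ≠ 12) ∧
  ∀ p : ℕ, p.Prime → 5 ≤ p → p % 3 = 2 → ∃ v, H.IsHodge v ∧ ¬ (p : ℤ) ∣ H.disc v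

/-- **Hilbert squares and associated K3 surfaces of cubic fourfolds.** -/
theorem result {X : CubicFourfold} {H : H4 X} (hH : H.IsCohomology) :
    (5 ≤ H.rank → (HilbertSquare H ↔ AssociatedK3 H) ∧ (HilbertSquare H ↔ LocalConditions H)) ∧
    (4 ≤ H.rank → (∃ (v : Fin 23 → ℤ) (s : ℤ), H.IsHodge v ∧ s ≠ 0 ∧ H.disc v = 2 * s ^ 2) →
      (HilbertSquare H ↔ AssociatedK3 H) ∧ (HilbertSquare H ↔ LocalConditions H)) ∧
    (13 ≤ H.rank → HilbertSquare H ∧ AssociatedK3 H) ∧
    (Nonempty X.Plane → (HilbertSquare H ↔ AssociatedK3 H) ∧
      (HilbertSquare H ↔ ∃ v, H.IsHodge v ∧ ¬ 4 ∣ H.disc v)) ∧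
    (InDivisor H 18 → (HilbertSquare H ↔ AssociatedK3 H) ∧
      (HilbertSquare H ↔ ∃ v, H.IsHodge v ∧ H.disc v % 18 ≠ 0 ∧ H.disc v % 18 ≠ 12)) := by
  have hK : AssociatedK3 H ↔ H.HasK3 := by
    constructor
    · rintro ⟨d, hA, v, hv, hs, rfl⟩
      exact ⟨v, hv, hs, hA⟩
    · rintro ⟨v, hv, hs, hA⟩
      exact ⟨_, hA, v, hv, hs, rfl⟩
  have hL : LocalConditions H ↔ Pool.Agent.Run7.h762.GS.Loc H := by
    constructor
    · rintro ⟨h1, h2, h3⟩
      refine ⟨h1, h2, fun p hp hp2 hp3 => h3 p hp ?_ hp3⟩
      have := hp.two_le
      by_contra hcon
      have : p = 3 ∨ p = 4 := by omega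
      rcases this with rfl | rfl
      · norm_num at hp3
      · norm_num at hp
    · rintro ⟨h1, h2, h3⟩
      exact ⟨h1, h2, fun p hp hp5 hp3 => h3 p hp (by omega) hp3⟩
  have conv : ∀ {C : Prop}, (Pool.Agent.Run7.h762.SC.Hilb H ↔ H.HasK3) ∧ (H.HasK3 ↔ C) →
      (HilbertSquare H ↔ AssociatedK3 H) ∧ (HilbertSquare H ↔ C) := by
    rintro C ⟨h1, h2⟩
    exact ⟨h1.trans hK.symm, h1.trans h2⟩
  refine ⟨fun hr => ?_, fun hr => ?_, fun hr => ?_, fun hP => ?_, ?_⟩
  · rw [hL]
    exact conv (Pool.Agent.Run7.h762.GS.main_five hH hr)
  · rintro ⟨v, s, hv, hs, hd⟩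
    rw [hL]
    exact conv (Pool.Agent.Run7.h762.GS.main_four hH hr hv hs hd)
  · obtain ⟨h1, h2⟩ := Pool.Agent.Run7.h762.GS.main_thirteen hH hr
    exact ⟨h1, hK.2 h2⟩
  · exact conv (Pool.Agent.Run7.h762.GS.main_plane hH hP)
  · rintro ⟨v, hv, -, hd⟩
    exact conv (Pool.Agent.Run7.h762.GS.main_eighteen hH hv hd)

end Pool.Agent.Results.MP_4d0966_ag.RankFiveEquivalence
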