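import Pool.Agent.Run7.h971.SC.Span4

/-!
# Cubic fourfolds whose Hodge classes are spanned by planes and cubic scrolls

Problem `MP_4d0966_ag`, question Q1 (Galkin and Shinder): a smooth cubic fourfold `X` is rational if and
only if its variety of lines `F(X)` is birational to `S^[2]` for a K3 surface `S`. It is proved that one
direction holds for the `X` below: if `F(X) ~ S^[2]`, then `X` is rational. This theorem of helper971
was first handed in for `MP_6fa476_ag.SpannedByPlanesAndScrolls` (the conjecture of Hassett and
Kuznetsov).

Let `X` be a smooth cubic fourfold and `A(X)` the group of its Hodge classes in `H^4(X, ℤ)`. Suppose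
that one of the following conditions is satisfied.

(a) The rational vector space `A(X) ⊗ ℚ` is spanned by `h` and the classes of the planes in `X` (here `h`
    is the square of the hyperplane class).
(b) `X` contains a plane, and `A(X) ⊗ ℚ` is spanned by `h`, the classes of planes and the classes of
    cubic scrolls.
(c) `A(X) ⊗ ℚ` is spanned by `h` and the scroll classes, and there are at least thirteen pairs of
    scroll classes, or the rank of `A(X)` is not `11` or `12` and it is at least `6` or there are at
    least five pairs. (By scroll classes we mean the Hodge classes `t` with `t.h = 0`, `t.t = 4`; these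
    are the classes `T - h` where `T.h = 3`, `T.T = 7`.)
(d) `X` contains a plane, and `A(X) ⊗ ℚ` is spanned by `h` and `n` classes of discriminant at most
    `31`, where `n ≤ 5` or the sum of the discriminants is less than `128`.

There is no condition on the rank of `A(X)` in (a) and (b), and no bound for discriminants.
It is proved that for such `X` the following are equivalent: `X` has an associated K3 surface
(`X` is in a Hassett divisor `C_d` with an admissible `d`); the variety of lines is birational to the
Hilbert square of a K3 surface; `X` is rational, has an associated K3 surface and the variety of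
lines is birational to the Hilbert square of a K3 surface. Hence one direction of the conjecture
holds in these families: if `F(X) ~ S^[2]`, then `X` is rational. If the
equivalent conditions are not satisfied, then in the cases (a), (b), (d) all discriminants are
divisible by `4` and the rank of `A(X)` is at most `12`, and in the case (c) all discriminants
are divisible by `4` or all are `0` or `12` modulo `18`.

The condition (a) is satisfied for the very general member of any family of cubic fourfolds which
is defined by the existence of a configuration of planes (if the members with additional Hodge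
classes are contained in countably many proper subfamilies), and for many special cubic
fourfolds as the Fermat cubic fourfold. No bound for `d` is assumed.

No rationality theorem is a hypothesis. What is proved about the rationality is `KnownLocus`: `X` is
in one of the divisors `C_14`, `C_26`, `C_38`, `C_42`, or there are a plane `P` and a Hodge class `T` such
that `T.(h - P)` is odd. All these fourfolds are rational by published theorems (Bolognesi, Russo,
Staglianò for `C_14`; Russo, Staglianò for `C_26`, `C_38`, `C_42`; Hassett for the planes); this last step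
is the last statement of the theorem. The hypothesis `IsLattice` describes the lattice
`H^4(X, ℤ)` with the Hodge classes (unimodularity, positivity, the discriminants `2` and `6` do not
occur, Voisin's description of the classes of planes). The theorem of Addington which translates
`F(X) ~ S^[2]` is used in the definition `HilbertSquare`, Hassett's theorem in the definition `HasK3`.

Idea of the proof. Let `t_1, ..., t_n` be classes which together with `h` form a basis of `A(X) ⊗ ℚ`. For
every Hodge class `v` there is a class `w` in the coset of `v` modulo the group spanned by the `t_i`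
such that `disc w` is at most a quarter of the sum of the `disc t_i`: if the coordinates of `v` are
rounded up or down at random with the right probabilities then the expected value of `disc w` has
this bound. So `disc w ≤ 44` in the case (a) and `disc w ≤ 3 n` in the case (b). Suppose that `X` is not
in the divisors `C_14`, `C_26`, `C_38`, `C_42`, and that Hassett's theorem does not apply. If `n ≤ 11`,
then the discriminant of `w` cannot be `2` modulo `4`, the products of the `t_i` with all Hodge classes
are even, and it follows that `disc v` is congruent to `disc w` modulo `4`. If `n ≥ 12` then there is a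
contradiction: the form would have rank at most one modulo `2` or modulo `3` on a primitive
sublattice of rank `13` of the unimodular lattice `H^4(X, ℤ)` of rank `23`.
-/

set_option autoImplicit false

namespace Pool.Agent.Results.MP_4d0966_ag.SpannedByPlanesAndScrolls

open Pool.Agent.Y95.Q

/-- `X` is in the Hassett divisor `C_d`: there is a Hodge class `v` such that `h` and `v` span a
saturated group of discriminant `d`. -/
def InDivisor {X : CubicFourfold} (H : H4 X) (d : ℤ) : Prop :=
  ∃ v, H.IsHodge v ∧ H.Saturated v ∧ H.disc v = d

/-- `X` is in `C_14`, `C_26`, `C_38` or `C_42`, or there are a plane `P` in `X` and a Hodge class `T` such that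
`T.(h - P)` is odd. -/
def KnownLocus {X : CubicFourfold} (H : H4 X) : Prop :=
  (∃ d : ℤ, (d = 14 ∨ d = 26 ∨ d = 38 ∨ d = 42) ∧ InDivisor H d) ∨
    ∃ (P : X.Plane) (T : Fin 23 → ℤ), H.IsHodge T ∧ Odd (H.ip T (H.h - H.cl P))

/-- The published rationality theorems for `X`: Bolognesi, Russo, Staglianò for `C_14`; Russo,
Staglianò for `C_26`, `C_38`, `C_42`; Hassett for a plane `P` and a class `T` with `T.(h - P)` odd. -/
def RationalityTheorems {X : CubicFourfold} (H : H4 X) : Prop := KnownLocus H → X.IsRational

/-- `X` is in a Hassett divisor `C_d`, where `d = (2 n ^ 2 + 2 n + 2) / a ^ 2` with integers `a` and `n`.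
By a theorem of Addington this means that the variety of lines `F(X)` is birational to the Hilbert
square `S^[2]` of some K3 surface `S`. -/
def HilbertSquare {X : CubicFourfold} (H : H4 X) : Prop :=
  ∃ d, (∃ a n : ℤ, a ^ 2 * d = 2 * n ^ 2 + 2 * n + 2) ∧ InDivisor H d

/-- `X` is in the known rational locus, has an associated K3 surface, and `F(X)` is birational to
`S^[2]` for a K3 surface `S`. -/
def Conclusion {X : CubicFourfold} (H : H4 X) : Prop := KnownLocus H ∧ H.HasK3 ∧ HilbertSquare H

/-- The rational Hodge classes are spanned by `h` and the classes in `S`: every Hodge class has a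
nonzero multiple in the group generated by `h` and `S`. -/
def SpannedBy {X : CubicFourfold} (H : H4 X) (S : Set (Fin 23 → ℤ)) : Prop :=
  ∀ v, H.IsHodge v → ∃ m : ℤ, m ≠ 0 ∧ m • v ∈ AddSubgroup.closure (insert H.h S)

/-- The scroll classes: `T - h`, where `T` is a Hodge class with `T.h = 3` and `T.T = 7`. -/
def scrolls {X : CubicFourfold} (H : H4 X) : Set (Fin 23 → ℤ) :=
  {t | H.IsHodge t ∧ H.ip t H.h = 0 ∧ H.ip t t = 4}

/-- There are `n` pairs `t`, `-t` of scroll classes. -/
def ScrollPairs {X : CubicFourfold} (H : H4 X) (n : ℕ) : Prop :=
  ∃ t : Fin n → Fin 23 → ℤ, (∀ i, t i ∈ scrolls H) ∧ ∀ i j, i ≠ j → t i ≠ t j ∧ t i ≠ -t j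

/-- The conditions (a), (b), (d). -/
def SpannedWithPlanes {X : CubicFourfold} (H : H4 X) : Prop :=
  SpannedBy H (Set.range H.cl) ∨
  (Nonempty X.Plane ∧ SpannedBy H (Set.range H.cl ∪ scrolls H)) ∨
  (Nonempty X.Plane ∧ ∃ (n : ℕ) (t : Fin n → Fin 23 → ℤ),
    (∀ i, H.IsHodge (t i) ∧ H.disc (t i) ≤ 31) ∧ (n ≤ 5 ∨ ∑ i, H.disc (t i) < 128) ∧
      SpannedBy H (Set.range t))

/-- The condition (c). -/
def SpannedByScrolls {X : CubicFourfold} (H : H4 X) : Prop :=
  SpannedBy H (scrolls H) ∧ (ScrollPairs H 13 ∨
    ((ScrollPairs H 5 ∨ 6 ≤ H.rank) ∧ H.rank ≠ 11 ∧ H.rank ≠ 12))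

/-- **Cubic fourfolds whose Hodge classes are spanned by planes and scrolls.** -/
theorem result {X : CubicFourfold} {H : H4 X} (hL : Pool.Agent.Run7.h971.SC.IsLattice H) :
    ((SpannedWithPlanes H ∨ SpannedByScrolls H) →
      (H.HasK3 ↔ Conclusion H) ∧ (HilbertSquare H ↔ Conclusion H)) ∧
    (SpannedWithPlanes H → Conclusion H ∨ (H.rank ≤ 12 ∧ ∀ v, H.IsHodge v → 4 ∣ H.disc v)) ∧
    (SpannedByScrolls H → Conclusion H ∨ (∀ v, H.IsHodge v → 4 ∣ H.disc v) ∨
      ∀ v, H.IsHodge v → H.disc v % 18 = 0 ∨ H.disc v % 18 = 12) ∧
    (RationalityTheorems H → Conclusion H → X.IsRational) := by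
  by_cases hbad : Conclusion H
  · exact ⟨fun _ => ⟨⟨fun _ => hbad, fun h => h.2.1⟩, fun _ => hbad, fun h => h.2.2⟩,
      fun _ => Or.inl hbad, fun _ => Or.inl hbad, fun hR h => hR h.1⟩
  have hH : H.IsCohomology := (Pool.Agent.Run7.h971.SC.ctx_of hL hbad).hH
  have hpl : ∀ x ∈ Set.range H.cl, H.IsPl x := by
    rintro x ⟨P, rfl⟩
    exact (hH.cl_range _).1 ⟨P, rfl⟩
  have h1 : SpannedWithPlanes H →
      Conclusion H ∨ (H.rank ≤ 12 ∧ ∀ v, H.IsHodge v → 4 ∣ H.disc v) := by
    intro h
    have key : Conclusion H ∨ ∀ v, H.IsHodge v → 4 ∣ H.disc v := by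
      rcases h with h | ⟨hP, h⟩ | ⟨hP, n, t, ht, hn, h⟩
      · exact Pool.Agent.Run7.h971.SC.planes_span hL h
      · refine Pool.Agent.Run7.h971.SC.planes_scrolls_span_all hL hP (fun v hv => ?_)
        obtain ⟨m, hm, hmv⟩ := h v hv
        refine ⟨m, hm, AddSubgroup.closure_mono (Set.insert_subset_insert ?_) hmv⟩
        rintro x (hx | hx)
        · exact Or.inl (hpl x hx)
        · exact Or.inr hx
      · exact Pool.Agent.Run7.h971.SC.small_span hL hP (fun i => (ht i).1)
          (fun i => (ht i).2) h hn
    rcases key with h | h
    · exact Or.inl h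
    · exact Or.inr ⟨Pool.Agent.Run7.h971.SC.rank_le hH h, h⟩
  have h2 : SpannedByScrolls H → Conclusion H ∨ (∀ v, H.IsHodge v → 4 ∣ H.disc v) ∨
      ∀ v, H.IsHodge v → H.disc v % 18 = 0 ∨ H.disc v % 18 = 12 := by
    rintro ⟨h, ⟨t, ht1, ht2⟩ | ⟨h5, hr⟩⟩
    · exact Pool.Agent.Run7.h971.SC.scrolls_span_13 hL (t0 := t) ⟨ht1, ht2⟩ h
    · have h5' : ScrollPairs H 5 := by
        rcases h5 with h5 | h6
        · exact h5
        · obtain ⟨n, t, ht, hli, hn, -⟩ := Pool.Agent.Run7.h971.SC.exists_basis' hH
            (S := scrolls H) (fun x hx => hx.1) h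
          have hp := (Pool.Agent.Run7.h971.SC.pairs_of_indep (H := H) ht
            (hli.comp Fin.succ (Fin.succ_injective _))).cast (m := 5) (by omega)
          exact ⟨_, hp.1, hp.2⟩
      obtain ⟨t, ht1, ht2⟩ := h5'
      exact Pool.Agent.Run7.h971.SC.scrolls_span_all hL (t0 := t) ⟨ht1, ht2⟩ h hr
  refine ⟨fun h => ?_, h1, h2, fun hR h => hR h.1⟩
  have h3 : Conclusion H ∨ ∀ v, H.IsHodge v → ¬ Admissible (H.disc v) := by
    rcases h with h | h
    · rcases h1 h with h | ⟨-, h⟩
      · exact Or.inl h
      · exact Or.inr fun v hv => Pool.Agent.Run7.h971.SC.not_admissible (Or.inl (h v hv))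
    · rcases h2 h with h | h | h
      · exact Or.inl h
      · exact Or.inr fun v hv => Pool.Agent.Run7.h971.SC.not_admissible (Or.inl (h v hv))
      · exact Or.inr fun v hv => Pool.Agent.Run7.h971.SC.not_admissible (Or.inr (h v hv))
  refine ⟨⟨?_, fun h => h.2.1⟩, ⟨?_, fun h => h.2.2⟩⟩
  · rintro ⟨v, hv, -, hA⟩
    exact h3.resolve_right fun h => h v hv hA
  · rintro ⟨d, ⟨a, n, h⟩, v, hv, -, rfl⟩
    refine h3.resolve_right fun h' => h' v hv ?_
    have hpos : 0 < H.disc v := by
      by_contra hcon
      push Not at hcon
      have h4 : a ^ 2 * H.disc v ≤ 0 := mul_nonpos_of_nonneg_of_nonpos (by positivity) hcon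
      rw [h] at h4
      nlinarith [sq_nonneg (2 * n + 1)]
    exact ⟨hH.six_lt hv hpos, four_not_dvd h, nine_not_dvd h,
      fun p hp hp2 hd => prime_mod h hp hp2 hd⟩

end Pool.Agent.Results.MP_4d0966_ag.SpannedByPlanesAndScrolls
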