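import Pool.Agent.Run7.h971.SC.Span4

/-!
# Twelve independent planes or cubic scrolls

Problem `MP_4d0966_ag`, question Q1 (Galkin and Shinder): a smooth cubic fourfold `X` is rational if and
only if its variety of lines `F(X)` is birational to `S^[2]` for a K3 surface `S`. It is proved that
both conditions are satisfied for the `X` below. This theorem of helper971 was first handed in for
`MP_6fa476_ag.TwelvePlanesOrScrolls` (the conjecture of Hassett and Kuznetsov).

Let `X` be a smooth cubic fourfold. A scroll class is a Hodge class `t` in `H^4(X, ℤ)` with `t.h = 0` and
`t.t = 4`; these are the classes `T - h` where `T` is a Hodge class with the invariants `T.h = 3`,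
`T.T = 7` of a cubic scroll. It is proved: if there are twelve classes, each of which is the class
of a plane in `X` or a scroll class, which are linearly independent together with `h`, then `X` is
rational, has an associated K3 surface, and the variety of lines is birational to the Hilbert
square of a K3 surface. Nothing else is assumed about the Hodge classes of `X`.

It is known that `X` has an associated K3 surface if the rank of the group of Hodge classes is
large; the conjectures predict that `X` is rational, and this is proved here under the
assumption that sufficiently many of the Hodge classes come from the simplest surfaces. The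
theorem on twelve planes which meet pairwise in one point (a starting file) is the case in which
all classes are classes of planes with these intersection numbers. The argument does not work for
eleven classes: the lattice of rank `11` which is generated by a root lattice `(9 A₁ + A₂)(2)` of
scroll classes and a suitable class of norm `10` does not contain a class of norm `14`.

No rationality theorem is a hypothesis. What is proved about the rationality is `KnownLocus`: `X` is
in one of the divisors `C_14`, `C_26`, `C_38`, `C_42`, or there are a plane `P` and a Hodge class `T` such
that `T.(h - P)` is odd. All these fourfolds are rational by published theorems (Bolognesi, Russo,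
Staglianò for `C_14`; Russo, Staglianò for `C_26`, `C_38`, `C_42`; Hassett for the planes); this last step
is the last statement of the theorem. The hypothesis `IsLattice` describes the lattice
`H^4(X, ℤ)` with the Hodge classes (unimodularity, positivity, the discriminants `2` and `6` do not
occur, Voisin's description of the classes of planes). Addington's theorem is used in the
definition `HilbertSquare`, Hassett's theorem in the definition `HasK3`.

Idea of the proof. Suppose that the conclusion does not hold; then no Hodge class has one of the
discriminants `14`, `26`, `38`, `42`. Let `M` be the group of the Hodge classes in the rational span of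
`h` and the twelve classes `t_i`, a primitive subgroup of rank `13`.

If there is a plane or if all products of scroll classes are even, then no Hodge class has a
discriminant `d ≤ 42` which is `2` modulo `4`. (For `d = 30` without planes this uses the twelve classes:
a class of norm `10` would have a product `±1` or `±2` with every scroll class; the classes with
product `2` are orthogonal and there are at most ten of them by Bessel's inequality, and the
classes with product `1` are at most two, and their sum has product two.) Every class in `M` is
congruent modulo the `t_i` to a class of discriminant at most `36`, and it follows that `4` divides all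
discriminants of classes in `M`. So the form is `v.w = (v.h) (w.h)` modulo `2` on `M`.

If there is no plane and if `a`, `b` are scroll classes with the product one, then `v.w` is congruent to
`(v.a) (w.a)` modulo `3` for all scroll classes. The same is true for the classes of norm `6` and
`10`, and there is no class of norm `8` and no class of discriminant `20` or `32` in `M`. Every class in
`M` whose multiple by a power of three is in the group spanned by `h` and the `t_i` is congruent
modulo the `t_i` to a class of discriminant at most `35`; so `v.w = (v.a) (w.a)` modulo `3` on `M`.

In both cases the form on `M` has rank at most one modulo a prime number `p`, so that `M / p M` has a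
subspace of dimension `12` which is orthogonal to `M / p M`. As `H^4(X, ℤ)` is unimodular of rank `23` and
`M` is primitive of rank `13`, this is a contradiction.
-/

set_option autoImplicit false

namespace Pool.Agent.Results.MP_4d0966_ag.TwelvePlanesOrScrolls

open Pool.Agent.Y95.Q

/-- `X` is in the Hassett divisor `C_d`: there is a Hodge class `v` such that `h` and `v` span a
saturated group of discriminant `d`. -/
def InDivisor {X : CubicFourfold} (H : H4 X) (d : ℤ) : Prop :=
  ∃ v, H.IsHodge v ∧ H.Saturated v ∧ H.disc v = d

/-- `X` is in `C_14`, `C_26`, `C_38` or `C_42`, or there are a plane `P` in `X` and a Hodge class `T` such that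
`T.(h - P)` is odd. -/
def KnownLocus {X : CubicFourfold} (H : H4 X) : Prop :=
  (∃ d : ℤ, (d = 14 ∨ d = 26 ∨ d = 38 ∨ d = 42) ∧ InDivisor H d) ∨
    ∃ (P : X.Plane) (T : Fin 23 → ℤ), H.IsHodge T ∧ Odd (H.ip T (H.h - H.cl P))

/-- The published rationality theorems for `X`: Bolognesi, Russo, Staglianò for `C_14`; Russo,
Staglianò for `C_26`, `C_38`, `C_42`; Hassett for a plane `P` and a class `T` with `T.(h - P)` odd. -/
def RationalityTheorems {X : CubicFourfold} (H : H4 X) : Prop := KnownLocus H → X.IsRational

/-- `X` is in a Hassett divisor `C_d`, where `d = (2 n ^ 2 + 2 n + 2) / a ^ 2` with integers `a` and `n`.
By a theorem of Addington this means that the variety of lines `F(X)` is birational to the Hilbert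
square `S^[2]` of some K3 surface `S`. -/
def HilbertSquare {X : CubicFourfold} (H : H4 X) : Prop :=
  ∃ d, (∃ a n : ℤ, a ^ 2 * d = 2 * n ^ 2 + 2 * n + 2) ∧ InDivisor H d

/-- The classes of planes, and the scroll classes: `T - h`, where `T` is a Hodge class with `T.h = 3` and
`T.T = 7`. -/
def planesOrScrolls {X : CubicFourfold} (H : H4 X) : Set (Fin 23 → ℤ) :=
  Set.range H.cl ∪ {t | H.IsHodge t ∧ H.ip t H.h = 0 ∧ H.ip t t = 4}

/-- **Twelve independent planes or cubic scrolls.** The vectors `h`, `t_1`, ..., `t_12` are linearly
independent. -/
theorem result {X : CubicFourfold} {H : H4 X} (hL : Pool.Agent.Run7.h971.SC.IsLattice H)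
    {t : Fin 12 → Fin 23 → ℤ} (ht : ∀ i, t i ∈ planesOrScrolls H)
    (hli : LinearIndependent ℤ (Fin.cons H.h t : Fin 13 → Fin 23 → ℤ)) :
    (KnownLocus H ∧ H.HasK3 ∧ HilbertSquare H) ∧ (RationalityTheorems H → X.IsRational) := by
  have main : KnownLocus H ∧ H.HasK3 ∧ HilbertSquare H := by
    by_contra hbad
    have c : Pool.Agent.Run7.h971.SC.Ctx H := Pool.Agent.Run7.h971.SC.ctx_of hL hbad
    refine c.twelve (t := t) (fun i => ?_) hli
    rcases ht i with ⟨P, hP⟩ | h
    · exact Or.inl ((hL.cl_range _).1 ⟨P, hP⟩)
    · exact Or.inr h
  exact ⟨main, fun hR => hR main.1⟩

end Pool.Agent.Results.MP_4d0966_ag.TwelvePlanesOrScrolls
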